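import Pool.Agent.H51R3.PS.Common
import Pool.Agent.H607R3.PS.Grade
import Pool.Agent.H594.PSRegP
import Pool.Agent.H841.PSRes
import Pool.Agent.H291R3.PSB.Base
import Pool.Agent.H633R3.PS.Loc

/-!
# The second ring of the project PS

Dimension and grade computations over the ring `RR[[t]]/(s t)`.
-/

set_option autoImplicit false

namespace Pool.Agent.H195_grade

open Pool.Agent.H607R3.PS H51R3.PS IsLocalRing

section

variable {T : Type} [CommRing T] {α β γ : T}

/-- the class of the power series variable -/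
noncomputable def tt (T : Type) [CommRing T] (α β γ : T) : RP T α β γ :=
  Ideal.Quotient.mk _ PowerSeries.X

lemma s_mul_tt : toRP (RR.s : RR T α β γ) * tt T α β γ = 0 := by
  have h : toRP (RR.s : RR T α β γ) * tt T α β γ =
      Ideal.Quotient.mk _ (PowerSeries.C (RR.s : RR T α β γ) * PowerSeries.X) := by
    rw [map_mul]
    rfl
  rw [h, Ideal.Quotient.eq_zero_iff_mem]
  exact Ideal.subset_span rfl

/-- constant coefficient, then first coordinate -/
noncomputable def rhoP : RP T α β γ →+* T :=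
  Ideal.Quotient.lift _ ((rho : RR T α β γ →+* T).comp
    (PowerSeries.constantCoeff (R := RR T α β γ))) (by
    intro f hf
    rw [Ideal.mem_span_singleton] at hf
    obtain ⟨c, rfl⟩ := hf
    simp)

lemma rhoP_mk (F : PowerSeries (RR T α β γ)) :
    rhoP (Ideal.Quotient.mk _ F : RP T α β γ) = (PowerSeries.constantCoeff F).a := rfl

lemma rhoP_toRP (u : RR T α β γ) : rhoP (toRP u) = u.a := by
  have h : rhoP (toRP u) = (PowerSeries.constantCoeff (PowerSeries.C u)).a := rfl
  rw [h, PowerSeries.constantCoeff_C]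

lemma rhoP_tt : rhoP (tt T α β γ) = 0 := by
  have h : rhoP (tt T α β γ) =
      (PowerSeries.constantCoeff (PowerSeries.X : PowerSeries (RR T α β γ))).a := rfl
  rw [h, PowerSeries.constantCoeff_X]
  rfl

lemma decompP (f : RP T α β γ) : ∃ (b c : T) (g : RP T α β γ),
    f = toRP (RR.emb (rhoP f)) + toRP (RR.emb b) * toRP (RR.x : RR T α β γ) +
      toRP (RR.emb c) * toRP (RR.w : RR T α β γ) + tt T α β γ * g := by
  obtain ⟨F, rfl⟩ := Ideal.Quotient.mk_surjective f
  obtain ⟨G, hG⟩ := Pool.Agent.H291R3.PSB.decomp1 F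
  refine ⟨(PowerSeries.constantCoeff F).b, (PowerSeries.constantCoeff F).c,
    Ideal.Quotient.mk _ G, ?_⟩
  rw [rhoP_mk]
  have h1 : (Ideal.Quotient.mk _ F : RP T α β γ) =
      toRP (PowerSeries.constantCoeff F) + tt T α β γ * Ideal.Quotient.mk _ G := by
    conv_lhs => rw [hG]
    rw [map_add, map_mul]
    rfl
  rw [h1]
  conv_lhs => rw [RR.decomp (PowerSeries.constantCoeff F)]
  rw [map_add, map_add, map_mul, map_mul]

/-- membership in a prime through the decomposition -/
lemma mem_of_rhoP {q : Ideal (RP T α β γ)} (hx : toRP (RR.x : RR T α β γ) ∈ q)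
    (hw : toRP (RR.w : RR T α β γ) ∈ q) (ht : tt T α β γ ∈ q) (f : RP T α β γ)
    (hf : toRP (RR.emb (rhoP f)) ∈ q) : f ∈ q := by
  obtain ⟨b, c, g, h⟩ := decompP f
  rw [h]
  exact add_mem (add_mem (add_mem hf (q.mul_mem_left _ hx)) (q.mul_mem_left _ hw))
    (q.mul_mem_right _ ht)

end

section

variable {T : Type} [CommRing T] [IsLocalRing T] [IsNoetherianRing T] [IsDomain T] {α β γ : T}

/-- the prime of the `s`-axis -/
noncomputable def QQ (T : Type) [CommRing T] (α β γ : T) : Ideal (RP T α β γ) :=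
  (Ideal.span {α, β} : Ideal T).comap rhoP

lemma mem_QQ (f : RP T α β γ) : f ∈ QQ T α β γ ↔ rhoP f ∈ (Ideal.span {α, β} : Ideal T) :=
  Iff.rfl

omit [IsLocalRing T] [IsNoetherianRing T] [IsDomain T] in
lemma mem_al : α ∈ (Ideal.span {α, β} : Ideal T) := Ideal.subset_span (by simp)

omit [IsLocalRing T] [IsNoetherianRing T] [IsDomain T] in
lemma mem_be : β ∈ (Ideal.span {α, β} : Ideal T) := Ideal.subset_span (by simp)

lemma QQ_prime (hB : Base T α β γ) : (QQ T α β γ).IsPrime := by
  have := hB.prime2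
  exact Ideal.IsPrime.comap _

lemma xx_rel : toRP (RR.x : RR T α β γ) ^ 2 = toRP (RR.emb α) * toRP (RR.x : RR T α β γ) +
    toRP (RR.emb β) * toRP (RR.w : RR T α β γ) := by
  rw [← map_pow, ← map_mul, ← map_mul, ← map_add]
  congr 1
  ext <;> simp [RR.x, RR.w, pow_two]

lemma ws_rel : toRP (RR.w : RR T α β γ) * toRP (RR.s : RR T α β γ) = 0 := by
  rw [← map_mul, RR.ws, map_zero]

lemma QQ_minimal (hB : Base T α β γ) : QQ T α β γ ∈
    (Ideal.span {toRP (RR.emb α : RR T α β γ), toRP (RR.emb β)}).minimalPrimes := by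
  refine ⟨⟨QQ_prime hB, ?_⟩, ?_⟩
  · rw [Ideal.span_le]
    rintro _ (rfl | rfl)
    · rw [SetLike.mem_coe, mem_QQ, rhoP_toRP]
      exact mem_al
    · rw [SetLike.mem_coe, mem_QQ, rhoP_toRP]
      exact mem_be
  · rintro q ⟨hq, hle⟩ hqQ
    have ha : toRP (RR.emb α : RR T α β γ) ∈ q := hle (Ideal.subset_span (by simp))
    have hb : toRP (RR.emb β : RR T α β γ) ∈ q := hle (Ideal.subset_span (by simp))
    have hs : toRP (RR.s : RR T α β γ) ∉ q := by
      intro h
      have h1 := hqQ h
      rw [mem_QQ, rhoP_toRP] at h1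
      exact hB.notMem h1
    have hx : toRP (RR.x : RR T α β γ) ∈ q := by
      have h1 : toRP (RR.x : RR T α β γ) ^ 2 ∈ q := by
        rw [xx_rel]
        exact add_mem (q.mul_mem_right _ ha) (q.mul_mem_right _ hb)
      exact hq.mem_of_pow_mem _ h1
    have hw : toRP (RR.w : RR T α β γ) ∈ q := by
      have h1 : toRP (RR.w : RR T α β γ) * toRP (RR.s : RR T α β γ) ∈ q := by
        rw [ws_rel]
        exact zero_mem _
      exact (hq.mem_or_mem h1).resolve_right hs
    have ht : tt T α β γ ∈ q := by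
      have h1 : toRP (RR.s : RR T α β γ) * tt T α β γ ∈ q := by
        rw [s_mul_tt]
        exact zero_mem _
      exact (hq.mem_or_mem h1).resolve_left hs
    intro f hf
    refine mem_of_rhoP hx hw ht f ?_
    rw [mem_QQ, Ideal.mem_span_pair] at hf
    obtain ⟨u, v, huv⟩ := hf
    rw [← huv]
    simp only [map_add, map_mul]
    exact add_mem (q.mul_mem_left _ ha) (q.mul_mem_left _ hb)

lemma gens_map {R S : Type} [CommRing R] [CommRing S] (φ : R →+* S) (x y z w s : R) (i : Fin 7) :
    φ (gens x y z w s i) = gens (φ x) (φ y) (φ z) (φ w) (φ s) i := by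
  fin_cases i <;> simp [gens]

lemma cP_le_QQ : cP T α β γ ≤ QQ T α β γ := by
  unfold cP cI
  rw [Ideal.span_le]
  rintro _ ⟨i, rfl⟩
  rw [SetLike.mem_coe, mem_QQ, ← gens_map, rhoP_toRP]
  exact rho_gens i

/-- a weakly regular sequence in a prime is no longer than the height -/
lemma length_le_height {R : Type} [CommRing R] [IsNoetherianRing R] (Q : Ideal R) [Q.IsPrime]
    (S : Type) [CommRing S] [Algebra R S] [IsLocalization.AtPrime S Q]
    {rs : List R} (hreg : RingTheory.Sequence.IsWeaklyRegular R rs) (hmem : ∀ r ∈ rs, r ∈ Q) :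
    (rs.length : ℕ∞) ≤ Q.height := by
  have : IsLocalRing S := IsLocalization.AtPrime.isLocalRing S Q
  have : IsNoetherianRing S := IsLocalization.isNoetherianRing Q.primeCompl S inferInstance
  have h1 := hreg.isRegular_of_isLocalization_of_mem S Q hmem
  have h2 := ringKrullDim_add_length_eq_ringKrullDim_of_isRegular _ h1
  rw [IsLocalization.AtPrime.ringKrullDim_eq_height Q S, List.length_map] at h2
  have hnt : Nontrivial (S ⧸ Ideal.ofList (rs.map (algebraMap R S))) := by
    apply Ideal.Quotient.nontrivial_iff.mpr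
    intro htop
    apply h1.2
    rw [htop]
    simp
  have h7 : (0 : WithBot ℕ∞) ≤ ringKrullDim (S ⧸ Ideal.ofList (rs.map (algebraMap R S))) :=
    ringKrullDim_nonneg_of_nontrivial
  have h8 : (0 : WithBot ℕ∞) + ((rs.length : ℕ) : WithBot ℕ∞) ≤ (Q.height : WithBot ℕ∞) :=
    (add_le_add h7 le_rfl).trans h2.le
  rw [zero_add] at h8
  exact_mod_cast h8

/-- no weakly regular sequence of length three in the ideal -/
theorem taskGradeP : TaskGradeP := by
  intro T _ _ _ _ α β γ hB
  rintro ⟨rs, hlen, hmem, hreg⟩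
  have := QQ_prime hB
  have : IsNoetherianRing (RP T α β γ) := noeth_RP
  have h1 := length_le_height (QQ T α β γ) (Localization.AtPrime (QQ T α β γ)) hreg
    (fun r hr => cP_le_QQ (hmem r hr))
  classical
  have h4 : (QQ T α β γ) ∈ (Ideal.span
      ((({toRP (RR.emb α : RR T α β γ), toRP (RR.emb β)} : Finset (RP T α β γ))) :
        Set (RP T α β γ))).minimalPrimes := by
    have := QQ_minimal hB
    simpa using this
  have h5 := Ideal.height_le_card_of_mem_minimalPrimes_span_finset h4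
  have h6 : (((({toRP (RR.emb α : RR T α β γ), toRP (RR.emb β)} :
      Finset (RP T α β γ))).card : ℕ) : ℕ∞) ≤ 2 := by
    exact_mod_cast Finset.card_le_two
  rw [hlen] at h1
  have h7 : ((3 : ℕ) : ℕ∞) ≤ 2 := h1.trans (h5.trans h6)
  exact absurd (by exact_mod_cast h7 : (3 : ℕ) ≤ 2) (by decide)

/-! ### Dimensions -/

/-- a prime containing the ideal and `s + t` is the maximal ideal -/
lemma mem_of_prime [IsLocalRing (RP T α β γ)] (hB : Base T α β γ) (q : Ideal (RP T α β γ))
    [hq : q.IsPrime] (hle : cP T α β γ ≤ q)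
    (hst : toRP (RR.s : RR T α β γ) + tt T α β γ ∈ q) : maximalIdeal (RP T α β γ) ≤ q := by
  have hg : ∀ i : Fin 7, gens (toRP (RR.x : RR T α β γ)) (toRP RR.y) (toRP RR.z) (toRP RR.w)
      (toRP RR.s) i ∈ q := fun i => hle (Ideal.subset_span ⟨i, rfl⟩)
  have h0 : toRP (RR.s : RR T α β γ) * tt T α β γ ∈ q := by
    rw [s_mul_tt]
    exact zero_mem _
  have hs : toRP (RR.s : RR T α β γ) ∈ q ∧ tt T α β γ ∈ q := by
    rcases hq.mem_or_mem h0 with h | h
    · exact ⟨h, (Ideal.add_mem_iff_right q h).mp hst⟩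
    · exact ⟨(Ideal.add_mem_iff_left q h).mp hst, h⟩
  have hy : toRP (RR.y : RR T α β γ) ∈ q := hq.mem_of_pow_mem 3 (hg 0)
  have hz : toRP (RR.z : RR T α β γ) ∈ q := hq.mem_of_pow_mem 2 (hg 1)
  have hx : toRP (RR.x : RR T α β γ) ∈ q := by
    have h1 : toRP (RR.x : RR T α β γ) ^ 2 + toRP RR.s ^ 2 * toRP RR.z ∈ q := hg 3
    exact hq.mem_of_pow_mem 2 ((Ideal.add_mem_iff_left q (q.mul_mem_left _ hz)).mp h1)
  have hw : toRP (RR.w : RR T α β γ) ∈ q := by
    have h1 : toRP (RR.w : RR T α β γ) ^ 4 + toRP RR.s * toRP RR.y * toRP RR.z ∈ q := hg 4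
    exact hq.mem_of_pow_mem 4 ((Ideal.add_mem_iff_left q (q.mul_mem_left _ hz)).mp h1)
  have ha : toRP (RR.emb α : RR T α β γ) ∈ q := by
    rw [← RR.x_sub_y, map_sub]
    exact sub_mem hx hy
  have hb : toRP (RR.emb β : RR T α β γ) ∈ q := by
    rw [← RR.z_eq]
    exact hz
  have hc : toRP (RR.emb γ : RR T α β γ) ∈ q := by
    rw [← RR.s_add_w, map_add]
    exact add_mem hs.1 hw
  intro f hf
  refine mem_of_rhoP hx hw hs.2 f ?_
  have h1 : rhoP f ∈ maximalIdeal T := by
    rw [mem_maximalIdeal, mem_nonunits_iff]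
    intro hu
    have h2 : IsUnit (toRP (RR.emb (rhoP f)) : RP T α β γ) := by
      have := (hu.map (RR.emb : T →+* RR T α β γ)).map (toRP : RR T α β γ →+* RP T α β γ)
      exact this
    -- `f - toRP (emb (rhoP f))` lies in the proper ideal generated by `x, w, t`
    have hxm : toRP (RR.x : RR T α β γ) ∈ maximalIdeal (RP T α β γ) := le_maximalIdeal hq.ne_top hx
    have hwm : toRP (RR.w : RR T α β γ) ∈ maximalIdeal (RP T α β γ) := le_maximalIdeal hq.ne_top hw
    have htm : tt T α β γ ∈ maximalIdeal (RP T α β γ) := le_maximalIdeal hq.ne_top hs.2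
    obtain ⟨b, c, g, h⟩ := decompP f
    have h3 : toRP (RR.emb (rhoP f)) ∈ maximalIdeal (RP T α β γ) := by
      have h4 : toRP (RR.emb (rhoP f)) = f - (toRP (RR.emb b) * toRP (RR.x : RR T α β γ) +
          toRP (RR.emb c) * toRP (RR.w : RR T α β γ) + tt T α β γ * g) := by
        linear_combination -h
      rw [h4]
      exact sub_mem hf (add_mem (add_mem (Ideal.mul_mem_left _ _ hxm) (Ideal.mul_mem_left _ _ hwm))
        (Ideal.mul_mem_right _ _ htm))
    exact (mem_nonunits_iff.mp ((mem_maximalIdeal _).mp h3)) h2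
  rw [hB.max, Ideal.mem_span_insert] at h1
  obtain ⟨u, v, hv, huv⟩ := h1
  rw [Ideal.mem_span_pair] at hv
  obtain ⟨v1, v2, hv⟩ := hv
  rw [huv, ← hv]
  simp only [map_add, map_mul]
  exact add_mem (q.mul_mem_left _ ha) (add_mem (q.mul_mem_left _ hb) (q.mul_mem_left _ hc))

/-- a dimension bound for a quotient of a local ring -/
lemma dim_quot_le_one {R : Type} [CommRing R] [IsNoetherianRing R] [IsLocalRing R] (I : Ideal R)
    (hI : I ≠ ⊤) (e : R) (he : e ∈ maximalIdeal R)
    (h : ∀ q : Ideal R, q.IsPrime → I ≤ q → e ∈ q → maximalIdeal R ≤ q) :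
    ringKrullDim (R ⧸ I) ≤ 1 := by
  have : Nontrivial (R ⧸ I) := Ideal.Quotient.nontrivial_iff.mpr hI
  have : IsLocalRing (R ⧸ I) :=
    IsLocalRing.of_surjective' (Ideal.Quotient.mk I) Ideal.Quotient.mk_surjective
  rw [← IsLocalRing.maximalIdeal_height_eq_ringKrullDim]
  have hmin : maximalIdeal (R ⧸ I) ∈
      (Ideal.span {Ideal.Quotient.mk I e} : Ideal (R ⧸ I)).minimalPrimes := by
    refine ⟨⟨inferInstance, ?_⟩, ?_⟩
    · rw [Ideal.span_singleton_le_iff_mem, mem_maximalIdeal, mem_nonunits_iff]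
      intro hu
      have : IsLocalHom (Ideal.Quotient.mk I) :=
        IsLocalHom.of_surjective _ Ideal.Quotient.mk_surjective
      exact (mem_nonunits_iff.mp ((mem_maximalIdeal _).mp he)) ((isUnit_map_iff _ _).mp hu)
    · rintro q ⟨hq, hle⟩ -
      have hq' : (q.comap (Ideal.Quotient.mk I)).IsPrime := hq.comap _
      have h1 : I ≤ q.comap (Ideal.Quotient.mk I) := by
        intro a ha
        rw [Ideal.mem_comap, Ideal.Quotient.eq_zero_iff_mem.mpr ha]
        exact zero_mem _
      have h2 := h _ hq' h1 (hle (Ideal.subset_span rfl))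
      intro a ha
      obtain ⟨a, rfl⟩ := Ideal.Quotient.mk_surjective a
      refine h2 ?_
      rw [mem_maximalIdeal, mem_nonunits_iff] at ha ⊢
      exact fun hu => ha (hu.map _)
  have h1 := Ideal.height_le_one_of_isPrincipal_of_mem_minimalPrimes _ _ hmin
  exact WithBot.coe_le_coe.mpr h1

/-- dimension of a power series ring over a Noetherian local ring -/
lemma dim_powerSeries {S : Type} [CommRing S] [IsLocalRing S] [IsNoetherianRing S] :
    ringKrullDim S + 1 = ringKrullDim (PowerSeries S) := by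
  have hX : (PowerSeries.X : PowerSeries S) ∈ nonZeroDivisors (PowerSeries S) := by
    rw [mem_nonZeroDivisors_iff_right]
    intro f hf
    exact PowerSeries.ext fun n => by
      have := congrArg (PowerSeries.coeff (n + 1)) hf
      rwa [PowerSeries.coeff_succ_mul_X, map_zero] at this
  have hm : (PowerSeries.X : PowerSeries S) ∈ maximalIdeal (PowerSeries S) := by
    rw [Pool.Agent.H291R3.PSB.mem_max_iff, PowerSeries.constantCoeff_X]
    exact Ideal.zero_mem _
  have h1 := ringKrullDim_quotient_span_singleton_succ_eq_ringKrullDim_of_mem_nonZeroDivisors hX hm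
  have hker : Ideal.span {(PowerSeries.X : PowerSeries S)} =
      RingHom.ker (PowerSeries.constantCoeff : PowerSeries S →+* S) := by
    ext f
    rw [Ideal.mem_span_singleton, PowerSeries.X_dvd_iff, RingHom.mem_ker]
  have e : (PowerSeries S ⧸ Ideal.span {(PowerSeries.X : PowerSeries S)}) ≃+* S :=
    (Ideal.quotEquivOfEq hker).trans
      (RingHom.quotientKerEquivOfSurjective (f := (PowerSeries.constantCoeff : PowerSeries S →+* S))
        PowerSeries.constantCoeff_surj)
  rw [← h1, ringKrullDim_eq_of_ringEquiv e]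

lemma four_le_dim [IsLocalRing (RR T α β γ)] (hB : Base T α β γ) :
    (4 : WithBot ℕ∞) ≤ ringKrullDim (RP T α β γ) := by
  set I : Ideal (RR T α β γ) := Ideal.span {RR.s} with hI
  have hnt : Nontrivial (RR T α β γ ⧸ I) := (injA T α β γ).nontrivial
  have hloc : IsLocalRing (RR T α β γ ⧸ I) :=
    IsLocalRing.of_surjective' (Ideal.Quotient.mk I) Ideal.Quotient.mk_surjective
  have h1 := dimA hB
  have h2 : (3 : WithBot ℕ∞) + 1 ≤ ringKrullDim (PowerSeries (RR T α β γ ⧸ I)) := by
    rw [← dim_powerSeries]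
    exact add_le_add h1 le_rfl
  have h3 : (3 : WithBot ℕ∞) + 1 = 4 := by norm_num
  rw [h3] at h2
  refine h2.trans (ringKrullDim_le_of_surjective (Ideal.Quotient.lift _
    (PowerSeries.map (Ideal.Quotient.mk I)) ?_) ?_)
  · intro f hf
    rw [Ideal.mem_span_singleton] at hf
    obtain ⟨c, rfl⟩ := hf
    have h4 : Ideal.Quotient.mk I RR.s = 0 := Ideal.Quotient.eq_zero_iff_mem.mpr
      (Ideal.subset_span rfl)
    rw [map_mul, map_mul, PowerSeries.map_C, h4, map_zero, zero_mul, zero_mul]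
  · intro g
    obtain ⟨f, hf⟩ := PowerSeries.map_surjective (Ideal.Quotient.mk I)
      Ideal.Quotient.mk_surjective g
    exact ⟨Ideal.Quotient.mk _ f, hf⟩

/-- dimensions for the grade conjecture -/
theorem taskDimP : TaskDimP := by
  intro T _ _ _ _ α β γ hB
  obtain ⟨hα, hβ, hγ⟩ := mem_max hB
  have hloc : IsLocalRing (RR T α β γ) := Pool.Agent.H607R3.PS.taskLoc T α β γ hα hβ hγ
  have hlocP : IsLocalRing (RP T α β γ) := local_RP
  have hN : IsNoetherianRing (RP T α β γ) := noeth_RP
  have h1 : ringKrullDim (RP T α β γ ⧸ cP T α β γ) ≤ 1 := by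
    refine dim_quot_le_one _ (cP_ne_top hα hβ hγ) (toRP (RR.s : RR T α β γ) + tt T α β γ) ?_
      fun q hq h2 h3 => mem_of_prime hB q h2 h3
    have hQ : (maximalIdeal T).comap (rhoP : RP T α β γ →+* T) ≠ ⊤ :=
      Ideal.comap_ne_top _ (maximalIdeal.isMaximal T).ne_top
    refine le_maximalIdeal hQ ?_
    rw [Ideal.mem_comap, map_add, rhoP_toRP, rhoP_tt, add_zero]
    exact hγ
  have h2 := four_le_dim hB
  calc (2 : WithBot ℕ∞) + ringKrullDim (RP T α β γ ⧸ cP T α β γ) ≤ 2 + 1 := add_le_add le_rfl h1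
    _ < 4 := by
      have : (2 : WithBot ℕ∞) + 1 = 3 := by norm_num
      rw [this]
      exact_mod_cast (by decide : (3 : ℕ) < 4)
    _ ≤ _ := h2

end

end Pool.Agent.H195_grade
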